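import Pool.Agent.Helper60.PlzA.Goals

set_option autoImplicit false

/-!
# Project PLA (MP_8e7d5e_co), packet DFCSUM: the sum of the deficits over all walks
-/

namespace Pool.Agent.Helper31.PlzA

open Finset Pool.Agent.Helper93.Plz Pool.Agent.Helper60.PlzA

open scoped Classical

/-- WINU for a single vertex of the walk. -/
theorem winu_one (h1 : S_WINU) {V : Type} [Fintype V] (G : SimpleGraph V) (t : ℕ)
    (ht : ∀ v, dgr G v ≤ t) (k i : ℕ) (hi : i ≤ k) (g : V → ℝ) (hg : ∀ v, 0 ≤ g v) :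
    ∑ x ∈ Wk G k, g (ev x i) ≤ (t : ℝ) ^ k * ∑ v, g v := by
  have h := h1 V _ G t ht k i 0 (by omega) (fun y => g (y 0)) (fun y => hg _)
  have hW : (Wk G 0) = univ := by
    ext y
    simp [Wk]
  rw [hW] at h
  have hs : ∑ y : Fin (0 + 1) → V, g (y 0) = ∑ v, g v :=
    Fintype.sum_equiv (Equiv.funUnique (Fin 1) V) _ _ (fun y => rfl)
  rw [hs] at h
  simpa using h

theorem sum_nbs_swap {V : Type} [Fintype V] (G : SimpleGraph V) (g : V → ℝ) :
    ∑ v, ∑ w ∈ nbs G v, g w = ∑ w, (dgr G w : ℝ) * g w := by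
  unfold nbs dgr
  simp only [sum_filter]
  rw [sum_comm]
  refine sum_congr rfl fun w _ => ?_
  rw [← sum_filter, sum_const, nsmul_eq_mul]
  congr 3
  ext v
  simp [nbs, G.adj_comm]

/-- **DFCSUM**. -/
theorem dfcsum (h1 : S_WINU) : S_DFCSUM := by
  intro V _ G t γ hR k
  have ht1 : 1 ≤ t := by
    rcases Nat.eq_zero_or_pos t with h | h
    · have := hR.one
      rw [h] at this
      norm_num at this
    · exact h
  have ht1' : (1 : ℝ) ≤ t := by exact_mod_cast ht1
  have hd : ∀ w, 0 ≤ (t : ℝ) - dgr G w := fun w => by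
    have : (dgr G w : ℝ) ≤ t := by exact_mod_cast hR.deg w
    linarith
  have hg : ∀ v, 0 ≤ ((t : ℝ) - dgr G v) + ∑ w ∈ nbs G v, ((t : ℝ) - dgr G w) := fun v =>
    add_nonneg (hd v) (sum_nonneg fun w _ => hd w)
  -- the pointwise bound
  have hpt : ∀ x : Fin (k + 1) → V, Dfc G t (TT G x) ≤
      2 * ∑ i ∈ range (k + 1),
        (((t : ℝ) - dgr G (ev x i)) + ∑ w ∈ nbs G (ev x i), ((t : ℝ) - dgr G w)) := by
    intro x
    unfold Dfc
    refine mul_le_mul_of_nonneg_left ?_ (by norm_num)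
    have hsub : cnb G (TT G x) ⊆
        (range (k + 1)).biUnion (fun i => insert (ev x i) (nbs G (ev x i))) := by
      intro w hw
      simp only [cnb, TT, mem_filter, mem_univ, true_and, mem_image] at hw
      rw [mem_biUnion]
      rcases hw with ⟨i, hi, rfl⟩ | ⟨v, ⟨i, hi, rfl⟩, hadj⟩
      · refine ⟨i, (mem_filter.mp hi).1, mem_insert_self _ _⟩
      · refine ⟨i, (mem_filter.mp hi).1, mem_insert_of_mem ?_⟩
        simp [nbs, hadj]
    calc ∑ w ∈ cnb G (TT G x), ((t : ℝ) - dgr G w)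
        ≤ ∑ w ∈ (range (k + 1)).biUnion (fun i => insert (ev x i) (nbs G (ev x i))),
            ((t : ℝ) - dgr G w) := sum_le_sum_of_subset_of_nonneg hsub fun w _ _ => hd w
      _ ≤ ∑ i ∈ range (k + 1), ∑ w ∈ insert (ev x i) (nbs G (ev x i)),
            ((t : ℝ) - dgr G w) := by
          have aux : ∀ s : Finset ℕ,
              ∑ w ∈ s.biUnion (fun i => insert (ev x i) (nbs G (ev x i))),
                ((t : ℝ) - dgr G w) ≤
              ∑ i ∈ s, ∑ w ∈ insert (ev x i) (nbs G (ev x i)), ((t : ℝ) - dgr G w) := by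
            intro s
            induction s using Finset.induction_on with
            | empty => simp
            | insert a s ha ih =>
              rw [biUnion_insert, sum_insert ha]
              have := sum_union_inter (s₁ := insert (ev x a) (nbs G (ev x a)))
                (s₂ := s.biUnion (fun i => insert (ev x i) (nbs G (ev x i))))
                (f := fun w => ((t : ℝ) - dgr G w))
              have h2 : 0 ≤ ∑ w ∈ (insert (ev x a) (nbs G (ev x a))) ∩
                  (s.biUnion (fun i => insert (ev x i) (nbs G (ev x i)))),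
                  ((t : ℝ) - dgr G w) := sum_nonneg fun w _ => hd w
              linarith
          exact aux _
      _ ≤ _ := by
          refine sum_le_sum fun i _ => ?_
          rw [sum_insert (by simp [nbs])]
  have hsum : ∑ v, (((t : ℝ) - dgr G v) + ∑ w ∈ nbs G v, ((t : ℝ) - dgr G w)) ≤
      2 * t * (γ * t * Fintype.card V) := by
    rw [sum_add_distrib, sum_nbs_swap]
    have h2 : ∑ w, (dgr G w : ℝ) * ((t : ℝ) - dgr G w) ≤ ∑ w, (t : ℝ) * ((t : ℝ) - dgr G w) := by
      refine sum_le_sum fun w _ => mul_le_mul_of_nonneg_right ?_ (hd w)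
      exact_mod_cast hR.deg w
    rw [← mul_sum] at h2
    have h3 := hR.dfc
    have h4 : 0 ≤ ∑ w, ((t : ℝ) - dgr G w) := sum_nonneg fun w _ => hd w
    nlinarith
  calc ∑ x ∈ Wk G k, Dfc G t (TT G x)
      ≤ ∑ x ∈ Wk G k, 2 * ∑ i ∈ range (k + 1),
        (((t : ℝ) - dgr G (ev x i)) + ∑ w ∈ nbs G (ev x i), ((t : ℝ) - dgr G w)) :=
        sum_le_sum fun x _ => hpt x
    _ = 2 * ∑ i ∈ range (k + 1), ∑ x ∈ Wk G k,
        (((t : ℝ) - dgr G (ev x i)) + ∑ w ∈ nbs G (ev x i), ((t : ℝ) - dgr G w)) := by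
        rw [← mul_sum, sum_comm]
    _ ≤ 2 * ∑ i ∈ range (k + 1), (t : ℝ) ^ k * (2 * t * (γ * t * Fintype.card V)) := by
        refine mul_le_mul_of_nonneg_left (sum_le_sum fun i hi => ?_) (by norm_num)
        refine (winu_one h1 G t hR.deg k i (Nat.lt_succ_iff.mp (mem_range.mp hi))
          (fun v => ((t : ℝ) - dgr G v) + ∑ w ∈ nbs G v, ((t : ℝ) - dgr G w)) hg).trans ?_
        exact mul_le_mul_of_nonneg_left hsum (by positivity)
    _ = 4 * ((k : ℝ) + 1) * γ * Fintype.card V * (t : ℝ) ^ (k + 2) := by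
        rw [sum_const, card_range, nsmul_eq_mul]
        push_cast
        ring

end Pool.Agent.Helper31.PlzA
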