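import Pool.Agent.Helper60.PlzA.Goals

set_option autoImplicit false

/-!
# Project PLA (MP_8e7d5e_co), packet RUNPL: the kept vertices of a good walk induce a planar graph
-/

namespace Pool.Agent.Helper31.PlzA

open Finset Pool.Agent.Helper93.Plz Pool.Agent.Helper60.PlzA

open scoped Classical

theorem plS_small {V : Type} (G : SimpleGraph V) {S : Set V} (Z : Finset V) (hZ : Z.card ≤ 4)
    (hS : S ⊆ (Z : Set V)) : PlS G S := by
  refine plS_comp hZ ?_ ?_
  · intro z _ y hy hyZ
    exact absurd (hS hy) (by simpa using hyZ)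
  · have : S \ (Z : Set V) = ∅ := Set.sdiff_eq_empty.mpr hS
    rw [this]
    exact plS_empty G

theorem ev_inj {V : Type} {k : ℕ} {x : Fin (k + 1) → V} (hx : Function.Injective x) {i j : ℕ}
    (hi : i ≤ k) (hj : j ≤ k) (h : ev x i = ev x j) : i = j := by
  unfold ev at h
  have h2 := hx h
  have h3 := congrArg Fin.val h2
  simp only at h3
  rw [min_eq_left hi, min_eq_left hj] at h3
  exact h3

/-- **RUNPL**. -/
theorem runpl (h1 : S_GLUE) : S_RUNPL := by
  intro V _ G k x hG
  -- boundaries
  have hK : ∀ b, (b ≤ k ∧ (b = 0 ∨ b = k ∨ ¬ Tr G x b)) → Kp G x b := by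
    rintro b ⟨hb, h | h | h⟩
    · exact ⟨hb, fun h' => by omega⟩
    · exact ⟨hb, fun h' => by omega⟩
    · exact ⟨hb, fun h' => h h'.2.2.2.2⟩
  have key : ∀ m, (m ≤ k ∧ (m = 0 ∨ m = k ∨ ¬ Tr G x m)) →
      PlS G {v | ∃ i, Kp G x i ∧ i ≤ m ∧ ev x i = v} := by
    intro m
    induction m using Nat.strong_induction_on with
    | _ m ih =>
      intro hm
      rcases Nat.eq_zero_or_pos m with h0 | h0
      · subst h0
        refine plS_small G {ev x 0} (by simp) ?_
        rintro v ⟨i, -, hi, rfl⟩
        have : i = 0 := by omega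
        subst this
        simp
      · set s : Finset ℕ := (range m).filter fun b => b ≤ k ∧ (b = 0 ∨ b = k ∨ ¬ Tr G x b) with hs
        have hsn : s.Nonempty := ⟨0, by simp [hs, h0]⟩
        obtain ⟨a, ha, hmax⟩ : ∃ a, a ∈ s ∧ ∀ l ∈ s, l ≤ a :=
          ⟨s.max' hsn, s.max'_mem hsn, fun l hl => s.le_max' l hl⟩
        have ha' : a < m ∧ (a ≤ k ∧ (a = 0 ∨ a = k ∨ ¬ Tr G x a)) := by
          simpa [hs] using ha
        have htr : ∀ l, a < l → l < m → Tr G x l := by
          intro l hl1 hl2
          by_contra hcon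
          have : l ∈ s := by
            rw [hs, mem_filter, mem_range]
            exact ⟨hl2, by omega, Or.inr (Or.inr hcon)⟩
          have := hmax l this
          omega
        have hIa := ih a ha'.1 ha'.2
        have hKa := hK a ha'.2
        have hR : PlS G {v | ∃ i, Kp G x i ∧ a ≤ i ∧ i ≤ m ∧ ev x i = v} := by
          refine plS_small G {ev x a, ev x (a + 1), ev x (a + 2), ev x m} ?_ ?_
          · exact Finset.card_le_four
          · rintro v ⟨i, hi, hai, him, rfl⟩
            simp only [coe_insert, coe_singleton, Set.mem_insert_iff, Set.mem_singleton_iff]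
            by_cases e0 : i = a
            · subst e0; exact Or.inl rfl
            by_cases e1 : i = a + 1
            · subst e1; exact Or.inr (Or.inl rfl)
            by_cases e2 : i = a + 2
            · subst e2; exact Or.inr (Or.inr (Or.inl rfl))
            by_cases e3 : i = m
            · subst e3; exact Or.inr (Or.inr (Or.inr rfl))
            exfalso
            apply hi.2
            refine ⟨by omega, by omega, htr _ (by omega) (by omega), htr _ (by omega) (by omega),
              htr _ (by omega) (by omega)⟩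
        have hunion : {v | ∃ i, Kp G x i ∧ i ≤ m ∧ ev x i = v} =
            {v | ∃ i, Kp G x i ∧ i ≤ a ∧ ev x i = v} ∪
              {v | ∃ i, Kp G x i ∧ a ≤ i ∧ i ≤ m ∧ ev x i = v} := by
          ext v
          constructor
          · rintro ⟨i, hi, him, rfl⟩
            rcases le_total i a with h | h
            · exact Or.inl ⟨i, hi, h, rfl⟩
            · exact Or.inr ⟨i, hi, h, him, rfl⟩
          · rintro (⟨i, hi, hia, rfl⟩ | ⟨i, hi, -, him, rfl⟩)
            · exact ⟨i, hi, by omega, rfl⟩
            · exact ⟨i, hi, him, rfl⟩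
        rw [hunion]
        refine h1 V G _ _ ?_ ?_ hIa hR
        · have : ∀ v ∈ ({v | ∃ i, Kp G x i ∧ i ≤ a ∧ ev x i = v} ∩
              {v | ∃ i, Kp G x i ∧ a ≤ i ∧ i ≤ m ∧ ev x i = v} : Set V), v = ev x a := by
            rintro v ⟨⟨i, hi, hia, rfl⟩, ⟨j, hj, haj, hjm, hij⟩⟩
            have := ev_inj hG.inj hj.1 hi.1 hij
            have hia' : i = a := by omega
            rw [hia']
          intro v hv w hw
          rw [this v hv, this w hw]
        · rintro v ⟨i, hi, hia, rfl⟩ w ⟨j, hj, haj, hjm, rfl⟩ hadj
          by_cases e1 : i = a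
          · left
            exact ⟨i, hi, by omega, by omega, rfl⟩
          by_cases e2 : j = a
          · right
            exact ⟨j, hj, by omega, rfl⟩
          exfalso
          have hlt : i < a := by omega
          have hlt2 : a < j := by omega
          have := (hG.run i j (by omega) hj.1).mp hadj a hlt hlt2
          rcases ha'.2.2 with h | h | h
          · omega
          · have := hj.1
            omega
          · exact h this
  have hk := key k ⟨le_rfl, Or.inr (Or.inl rfl)⟩
  have heq : (TT G x : Set V) = {v | ∃ i, Kp G x i ∧ i ≤ k ∧ ev x i = v} := by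
    ext v
    simp only [TT, Ks, coe_image, coe_filter, Set.mem_image, Set.mem_ofPred_eq, mem_range]
    constructor
    · rintro ⟨i, ⟨hi1, hi2⟩, rfl⟩
      exact ⟨i, hi2, by omega, rfl⟩
    · rintro ⟨i, hi, hik, rfl⟩
      exact ⟨i, ⟨by omega, hi⟩, rfl⟩
  rw [heq]
  exact hk

end Pool.Agent.Helper31.PlzA
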